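import Mathlib

/-!
Two maps of the real line which generate the interval `[0, 1]` (MP_b8546e_an).
-/

set_option autoImplicit false

namespace Pool.Agent.Wb8546e

open Set

/-- The first map. -/
noncomputable def p0 (x : ℝ) : ℝ :=
  max 0 (max (2 * min x (1 / 8 - x)) (min (1 / 2) (4 / 5 * (x - 1 / 8))))

/-- The two maps. -/
noncomputable def phi : Bool → ℝ → ℝ
  | false, x => p0 x
  | true, x => 1 - p0 (1 - x)

theorem p0_cont : Continuous p0 := by
  unfold p0
  fun_prop

theorem phi_cont (i : Bool) : Continuous (phi i) := by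
  cases i
  · exact p0_cont
  · exact continuous_const.sub (p0_cont.comp (continuous_const.sub continuous_id))

theorem p0_nonneg (x : ℝ) : 0 ≤ p0 x := le_max_left _ _

theorem p0_bd {x c : ℝ} (hc : 1 / 8 ≤ c) (h : 4 / 5 * (x - 1 / 8) ≤ c) : p0 x ≤ c := by
  have h1 := min_le_left x (1 / 8 - x)
  have h2 := min_le_right x (1 / 8 - x)
  refine max_le (by linarith) (max_le (by linarith) ((min_le_right _ _).trans h))

theorem p0_le (x : ℝ) : p0 x ≤ 1 / 2 := by
  have h1 := min_le_left x (1 / 8 - x)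
  have h2 := min_le_right x (1 / 8 - x)
  exact max_le (by norm_num) (max_le (by linarith) (min_le_left _ _))

theorem p0_affine {x : ℝ} (h1 : 1 / 8 ≤ x) (h2 : x ≤ 3 / 4) : p0 x = 4 / 5 * (x - 1 / 8) := by
  unfold p0
  rw [min_eq_right (by linarith : 1 / 8 - x ≤ x),
    min_eq_right (by linarith : 4 / 5 * (x - 1 / 8) ≤ 1 / 2),
    max_eq_right (by linarith : 2 * (1 / 8 - x) ≤ 4 / 5 * (x - 1 / 8)),
    max_eq_right (by linarith)]

theorem p0_flat {x : ℝ} (h1 : 3 / 4 ≤ x) : p0 x = 1 / 2 := by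
  unfold p0
  rw [min_eq_right (by linarith : 1 / 8 - x ≤ x),
    min_eq_left (by linarith : 1 / 2 ≤ 4 / 5 * (x - 1 / 8)),
    max_eq_right (by linarith : 2 * (1 / 8 - x) ≤ 1 / 2),
    max_eq_right (by norm_num)]

theorem p0_spike {x : ℝ} (h1 : 0 ≤ x) (h2 : x ≤ 1 / 16) : p0 x = 2 * x := by
  unfold p0
  have h3 : min (1 / 2) (4 / 5 * (x - 1 / 8)) ≤ 2 * x :=
    (min_le_right _ _).trans (by linarith)
  rw [min_eq_left (by linarith : x ≤ 1 / 8 - x), max_eq_left h3, max_eq_right (by linarith)]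

theorem p0_three (x : ℝ) : p0 (p0 (p0 x)) ≤ 1 / 4 := by
  have h1 := p0_le x
  have h2 : p0 (p0 x) ≤ 3 / 10 := p0_bd (by norm_num) (by linarith)
  exact p0_bd (by norm_num) (by linarith)

/-- The composition along a list. -/
noncomputable def run : List Bool → ℝ → ℝ
  | [], x => x
  | i :: l, x => phi i (run l x)

theorem run_append (l : List Bool) (i : Bool) (x : ℝ) : run (l ++ [i]) x = run l (phi i x) := by
  induction l with
  | nil => rfl
  | cons j l ih =>
    show phi j (run (l ++ [i]) x) = phi j (run l (phi i x))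
    rw [ih]

/-- From every point the set `U` is reached in exactly `k` steps. -/
def Hit (U : Set ℝ) (k : ℕ) : Prop := ∀ x : ℝ, ∃ l : List Bool, l.length = k ∧ run l x ∈ U

theorem hit_succ {U : Set ℝ} {k : ℕ} (h : Hit U k) : Hit U (k + 1) := by
  intro x
  obtain ⟨l, h1, h2⟩ := h (phi true x)
  exact ⟨l ++ [true], by simp [h1], by rw [run_append]; exact h2⟩

theorem hit_le {U : Set ℝ} {k m : ℕ} (hkm : k ≤ m) (h : Hit U k) : Hit U m := by
  induction m, hkm using Nat.le_induction with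
  | base => exact h
  | succ m _ ih => exact hit_succ ih

theorem hit_pull {U V : Set ℝ} {k : ℕ} (i : Bool) (hV : ∀ y ∈ V, phi i y ∈ U) (h : Hit V k) :
    Hit U (k + 1) := by
  intro x
  obtain ⟨l, h1, h2⟩ := h x
  exact ⟨i :: l, by simp [h1], hV _ h2⟩

theorem hit_base {U : Set ℝ} (h : (1 / 2 : ℝ) ∈ U) : Hit U 4 := by
  intro x
  refine ⟨[false, true, true, true], rfl, ?_⟩
  show p0 (1 - p0 (1 - (1 - p0 (1 - (1 - p0 (1 - x)))))) ∈ U
  have h1 := p0_three (1 - x)
  rw [sub_sub_cancel, sub_sub_cancel, p0_flat (by linarith)]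
  exact h

theorem main (m : ℕ) : ∀ α β : ℝ, 0 ≤ α → β ≤ 1 → (4 / 5 : ℝ) ^ m ≤ β - α →
    Hit (Ioo α β) (4 + m) := by
  induction m with
  | zero =>
    intro α β h1 h2 h3
    rw [pow_zero] at h3
    exact hit_base ⟨by linarith, by linarith⟩
  | succ m ih =>
    intro α β h1 h2 h3
    rw [pow_succ] at h3
    rcases le_or_gt β (1 / 2) with hb | hb
    · refine hit_pull false (V := Ioo (1 / 8 + 5 / 4 * α) (1 / 8 + 5 / 4 * β)) ?_
        (ih _ _ (by linarith) (by linarith) (by linarith))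
      rintro y ⟨h4, h5⟩
      show p0 y ∈ Ioo α β
      rw [p0_affine (by linarith) (by linarith)]
      exact ⟨by linarith, by linarith⟩
    · rcases le_or_gt (1 / 2) α with ha | ha
      · refine hit_pull true
          (V := Ioo (1 - (1 / 8 + 5 / 4 * (1 - α))) (1 - (1 / 8 + 5 / 4 * (1 - β)))) ?_
          (ih _ _ (by linarith) (by linarith) (by linarith))
        rintro y ⟨h4, h5⟩
        show 1 - p0 (1 - y) ∈ Ioo α β
        rw [p0_affine (by linarith) (by linarith)]
        exact ⟨by linarith, by linarith⟩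
      · exact hit_le (by omega) (hit_base ⟨ha, hb⟩)

/-- Every point of `[0, 1]` is approximated from every point by words of any large length. -/
theorem dense {ε : ℝ} (hε : 0 < ε) : ∃ K : ℕ, ∀ k : ℕ, K ≤ k → ∀ x a : ℝ, 0 ≤ a → a ≤ 1 →
    ∃ l : List Bool, l.length = k ∧ |run l x - a| < ε := by
  obtain ⟨m, hm⟩ := exists_pow_lt_of_lt_one hε (by norm_num : (4 / 5 : ℝ) < 1)
  refine ⟨4 + m, fun k hk x a h0 h1 => ?_⟩
  have hL : (4 / 5 : ℝ) ^ m ≤ 1 := pow_le_one₀ (by norm_num) (by norm_num)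
  have hL0 : (0 : ℝ) < (4 / 5 : ℝ) ^ m := by positivity
  set L : ℝ := (4 / 5 : ℝ) ^ m with hLd
  have h2 : min a (1 - L) ≤ a := min_le_left _ _
  have h3 : min a (1 - L) ≤ 1 - L := min_le_right _ _
  have h4 : 0 ≤ min a (1 - L) := le_min h0 (by linarith)
  have h5 : a - L ≤ min a (1 - L) := le_min (by linarith) (by linarith)
  obtain ⟨l, h6, h7⟩ := hit_le hk (main m (min a (1 - L)) (min a (1 - L) + L) h4 (by linarith)
    (by rw [add_sub_cancel_left])) x
  refine ⟨l, h6, ?_⟩
  rw [abs_lt]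
  exact ⟨by linarith [h7.1], by linarith [h7.2]⟩

end Pool.Agent.Wb8546e
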