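import Mathlib

/-!
Attractors and basins of iterated function systems (MP_b8546e_an).
-/

set_option autoImplicit false

namespace Pool.Agent.Wb8546e

open Set Filter Topology

/-- The union `F (B)` of the images `f (B)`, `f ∈ F`. -/
def Hut {X : Type} (F : Set (X → X)) (B : Set X) : Set X := ⋃ f ∈ F, f '' B

/-- `U` is an open set which contains `A`, and `F ^ k (B)` converges to `A` in the Hausdorff metric
for every nonempty compact subset `B` of `U`. -/
def Attracts {X : Type} [MetricSpace X] (F : Set (X → X)) (A U : Set X) : Prop :=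
  IsOpen U ∧ A ⊆ U ∧ ∀ B : Set X, B.Nonempty → IsCompact B → B ⊆ U →
    Tendsto (fun k : ℕ => Metric.hausdorffEDist ((Hut F)^[k] B) A) atTop (𝓝 0)

/-- `A` is an attractor of `F`. -/
def IsAttractor {X : Type} [MetricSpace X] (F : Set (X → X)) (A : Set X) : Prop :=
  A.Nonempty ∧ IsCompact A ∧ Hut F A = A ∧ ∃ U, Attracts F A U

/-- The basin of `A`: the union of all open sets `U` as in `Attracts`. -/
def basin {X : Type} [MetricSpace X] (F : Set (X → X)) (A : Set X) : Set X :=
  ⋃₀ {U | Attracts F A U}

/-- The supremum of the quotients `d (f x) (f y) / d x y` over all `x ≠ y`. -/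
noncomputable def Lip {X : Type} (d : X → X → ℝ) (f : X → X) : EReal :=
  ⨆ (x : X) (y : X) (_ : x ≠ y), ((d (f x) (f y) / d x y : ℝ) : EReal)

end Pool.Agent.Wb8546e
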