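import Pool.Agent.W_b8546e_h59.Core
import Pool.Agent.W_b8546e_h59.Defs

/-!
Strongly non-contractive iterated function systems of `ℝ ^ n` (MP_b8546e_an): proofs.
-/

set_option autoImplicit false

namespace Pool.Agent.Wb8546e

open Set Filter Topology

/-- A map with a point from which nearby points escape at speed two is not nonexpansive. -/
theorem lip_aux {X : Type} [MetricSpace X] (g : X → X) (q : ℝ → X) (hq : Continuous q)
    (h0 : ∀ s : ℝ, 1 / 16 ≤ s → s ≤ 1 / 8 → q s ≠ q 0)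
    (hg : ∀ s : ℝ, 0 ≤ s → s ≤ 1 / 16 → g (q s) = q (2 * s)) : 1 < Lip dist g := by
  by_contra hL
  have hle : ∀ x y, dist (g x) (g y) ≤ dist x y := by
    intro x y
    by_cases hxy : x = y
    · rw [hxy, dist_self, dist_self]
    · have h0 : ((dist (g x) (g y) / dist x y : ℝ) : EReal) ≤ Lip dist g := by
        unfold Lip
        refine le_iSup_of_le x ?_
        refine le_iSup_of_le y ?_
        rw [iSup_pos hxy]
      have h1 : ((dist (g x) (g y) / dist x y : ℝ) : EReal) ≤ 1 := h0.trans (not_lt.1 hL)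
      have h2 : dist (g x) (g y) / dist x y ≤ 1 := by exact_mod_cast h1
      rwa [div_le_one (dist_pos.2 hxy)] at h2
  have hS : (q '' Icc (1 / 16) (1 / 8))ᶜ ∈ 𝓝 (q 0) := by
    refine (isCompact_Icc.image hq).isClosed.isOpen_compl.mem_nhds ?_
    rintro ⟨s, hs, hs0⟩
    exact h0 s hs.1 hs.2 hs0
  obtain ⟨η, hη, hb⟩ := Metric.mem_nhds_iff.1 hS
  have hc : ∀ᶠ s in 𝓝 (0 : ℝ), q s ∈ Metric.ball (q 0) η :=
    (hq.tendsto 0).eventually (Metric.ball_mem_nhds _ hη)
  obtain ⟨δ, hδ, hd⟩ := Metric.eventually_nhds_iff.1 hc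
  obtain ⟨s, hs0, hs1, hsδ⟩ : ∃ s : ℝ, 0 < s ∧ s ≤ 1 / 16 ∧ s < δ :=
    ⟨min (δ / 2) (1 / 16), lt_min (by linarith) (by norm_num), min_le_right _ _,
      (min_le_left _ _).trans_lt (by linarith)⟩
  have hs2 : q s ∈ Metric.ball (q 0) η := hd (by rw [Real.dist_eq, sub_zero, abs_of_pos hs0]; exact hsδ)
  have g0 : g (q 0) = q 0 := by
    rw [hg 0 le_rfl (by norm_num), mul_zero]
  have key : ∀ j : ℕ, 2 ^ j * s ≤ 1 / 16 ∧ q (2 ^ j * s) ∈ Metric.ball (q 0) η := by
    intro j
    induction j with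
    | zero => rw [pow_zero, one_mul]; exact ⟨hs1, hs2⟩
    | succ j ih =>
      obtain ⟨h1, h2⟩ := ih
      have hpos : 0 < 2 ^ j * s := by positivity
      have h3 : (2 : ℝ) ^ (j + 1) * s = 2 * (2 ^ j * s) := by ring
      have h4 : q (2 ^ (j + 1) * s) ∈ Metric.ball (q 0) η := by
        rw [h3, ← hg _ hpos.le h1, Metric.mem_ball]
        calc dist (g (q (2 ^ j * s))) (q 0) = dist (g (q (2 ^ j * s))) (g (q 0)) := by rw [g0]
          _ ≤ dist (q (2 ^ j * s)) (q 0) := hle _ _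
          _ < η := h2
      refine ⟨?_, h4⟩
      by_contra h5
      push Not at h5
      exact hb h4 ⟨_, ⟨h5.le, by rw [h3]; linarith⟩, rfl⟩
  obtain ⟨j, hj⟩ := pow_unbounded_of_one_lt (1 / s) (one_lt_two : (1 : ℝ) < 2)
  rw [div_lt_iff₀ hs0] at hj
  linarith [(key j).1]

/-- The space. -/
abbrev E (m : ℕ) : Type := EuclideanSpace ℝ (Fin (m + 1))

/-- The first unit vector. -/
noncomputable def e0 (m : ℕ) : E m := EuclideanSpace.single 0 1

variable {m : ℕ}

theorem e0_norm : ‖e0 m‖ = 1 := by simp [e0]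

theorem e0_zero (t : ℝ) : (t • e0 m) 0 = t := by simp [e0]

theorem dist_e0 (s t : ℝ) : dist (s • e0 m) (t • e0 m) = |s - t| := by
  rw [dist_eq_norm, ← sub_smul, norm_smul, e0_norm, mul_one, Real.norm_eq_abs]

/-- The maps. -/
noncomputable def f (m : ℕ) (i : Bool) (x : E m) : E m := phi i (x 0) • e0 m

theorem f_cont (i : Bool) : Continuous (f m i) := by
  have h : Continuous fun x : E m => x 0 := by fun_prop
  exact ((phi_cont i).comp h).smul continuous_const

theorem f_smul (i : Bool) (t : ℝ) : f m i (t • e0 m) = phi i t • e0 m := by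
  rw [f, e0_zero]

/-- The attractor. -/
def A (m : ℕ) : Set (E m) := (fun t : ℝ => t • e0 m) '' Icc 0 1

theorem A_compact : IsCompact (A m) :=
  isCompact_Icc.image (continuous_id.smul continuous_const)

theorem phi_mem (i : Bool) (x : ℝ) : phi i x ∈ Icc (0 : ℝ) 1 := by
  have h1 := p0_nonneg
  have h2 := p0_le
  cases i
  · exact ⟨h1 x, (h2 x).trans (by norm_num)⟩
  · exact ⟨by show 0 ≤ 1 - p0 (1 - x); linarith [h2 (1 - x)],
      by show 1 - p0 (1 - x) ≤ 1; linarith [h1 (1 - x)]⟩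

theorem mem_hut {B : Set (E m)} {x : E m} :
    x ∈ Hut (range (f m)) B ↔ ∃ i, ∃ y ∈ B, f m i y = x := by
  simp [Hut]

theorem hut_sub (B : Set (E m)) : Hut (range (f m)) B ⊆ A m := by
  intro x hx
  obtain ⟨i, y, _, rfl⟩ := mem_hut.1 hx
  exact ⟨phi i (y 0), phi_mem i _, rfl⟩

theorem hut_A : Hut (range (f m)) (A m) = A m := by
  refine (hut_sub _).antisymm ?_
  rintro _ ⟨t, ⟨h0, h1⟩, rfl⟩
  rw [mem_hut]
  rcases le_total t (1 / 2) with h | h
  · refine ⟨false, (1 / 8 + 5 / 4 * t) • e0 m, ⟨_, ⟨by linarith, by linarith⟩, rfl⟩, ?_⟩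
    rw [f_smul]
    show p0 _ • e0 m = t • e0 m
    rw [p0_affine (by linarith) (by linarith)]
    congr 1
    ring
  · refine ⟨true, (1 - (1 / 8 + 5 / 4 * (1 - t))) • e0 m,
      ⟨_, ⟨by linarith, by linarith⟩, rfl⟩, ?_⟩
    rw [f_smul]
    show (1 - p0 (1 - _)) • e0 m = t • e0 m
    rw [p0_affine (by linarith) (by linarith)]
    congr 1
    ring

theorem mem_iter (B : Set (E m)) {x : E m} (hx : x ∈ B) (l : List Bool) :
    ∃ y ∈ (Hut (range (f m)))^[l.length] B, y 0 = run l (x 0) ∧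
      (l ≠ [] → y = run l (x 0) • e0 m) := by
  induction l with
  | nil => exact ⟨x, hx, rfl, fun h => absurd rfl h⟩
  | cons i l ih =>
    obtain ⟨y, hy, h1, _⟩ := ih
    have h2 : f m i y = run (i :: l) (x 0) • e0 m := by
      show phi i (y 0) • e0 m = phi i (run l (x 0)) • e0 m
      rw [h1]
    refine ⟨f m i y, ?_, ?_, fun _ => h2⟩
    · rw [List.length_cons, Function.iterate_succ_apply']
      exact mem_hut.2 ⟨i, y, hy, rfl⟩
    · rw [h2, e0_zero]

theorem attracts : Attracts (range (f m)) (A m) univ := by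
  refine ⟨isOpen_univ, subset_univ _, fun B hB _ _ => ?_⟩
  obtain ⟨x, hx⟩ := hB
  rw [ENNReal.tendsto_atTop_zero]
  intro ε hε
  obtain ⟨δ, hδ0, hδε⟩ := ENNReal.lt_iff_exists_nnreal_btwn.1 hε
  have hδ : (0 : ℝ) < δ := by exact_mod_cast hδ0
  obtain ⟨K, hK⟩ := dense hδ
  refine ⟨K + 1, fun k hk => Metric.hausdorffEDist_le_of_mem_edist (fun z hz => ?_)
    (fun a ha => ?_)⟩
  · obtain ⟨k', rfl⟩ : ∃ k', k = k' + 1 := ⟨k - 1, by omega⟩
    rw [Function.iterate_succ_apply'] at hz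
    exact ⟨z, hut_sub _ hz, by rw [edist_self]; exact zero_le⟩
  · obtain ⟨t, ht, rfl⟩ := ha
    obtain ⟨l, h1, h2⟩ := hK k (by omega) (x 0) t ht.1 ht.2
    obtain ⟨y, hy, _, h4⟩ := mem_iter B hx l
    have hl : l ≠ [] := by
      rintro rfl
      simp at h1
      omega
    refine ⟨y, by rw [← h1]; exact hy, ?_⟩
    rw [h4 hl, edist_dist, dist_e0, abs_sub_comm]
    refine (ENNReal.ofReal_le_ofReal h2.le).trans ?_
    rw [ENNReal.ofReal_coe_nnreal]
    exact hδε.le

theorem basin_univ : basin (range (f m)) (A m) = univ :=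
  eq_univ_of_univ_subset (subset_sUnion_of_mem attracts)

theorem zero_mem : (0 : ℝ) • e0 m ∈ A m := ⟨0, ⟨le_rfl, zero_le_one⟩, rfl⟩

theorem one_mem : (1 : ℝ) • e0 m ∈ A m := ⟨1, ⟨zero_le_one, le_rfl⟩, rfl⟩

theorem minimal {G : Set (E m → E m)} (hG : G ⊂ range (f m)) : Hut G (A m) ≠ A m := by
  intro h
  obtain ⟨g, ⟨i, rfl⟩, hi⟩ := exists_of_ssubset hG
  have h1 : ∀ z ∈ Hut G (A m), ∃ y : E m, f m (!i) y = z := by
    intro z hz
    simp only [Hut, mem_iUnion, exists_prop] at hz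
    obtain ⟨g, hg, y, _, rfl⟩ := hz
    obtain ⟨j, rfl⟩ := hG.1 hg
    have : j = !i := by
      cases i <;> cases j <;> simp_all
    exact ⟨y, by rw [this]⟩
  cases i
  · obtain ⟨y, hy⟩ := h1 ((0 : ℝ) • e0 m) (by rw [h]; exact zero_mem)
    have h2 := congrArg (fun z : E m => z 0) hy
    simp only [f, e0_zero] at h2
    have h3 : 1 - p0 (1 - y 0) = 0 := h2
    linarith [p0_le (1 - y 0)]
  · obtain ⟨y, hy⟩ := h1 ((1 : ℝ) • e0 m) (by rw [h]; exact one_mem)
    have h2 := congrArg (fun z : E m => z 0) hy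
    simp only [f, e0_zero] at h2
    have h3 : p0 (y 0) = 1 := h2
    linarith [p0_le (y 0)]

/-- The points near the fixed point. -/
def r : Bool → ℝ → ℝ
  | false, s => s
  | true, s => 1 - s

theorem phi_r (i : Bool) {s : ℝ} (h0 : 0 ≤ s) (h1 : s ≤ 1 / 16) : phi i (r i s) = r i (2 * s) := by
  cases i
  · exact p0_spike h0 h1
  · show 1 - p0 (1 - (1 - s)) = 1 - 2 * s
    rw [sub_sub_cancel, p0_spike h0 h1]

theorem r_cont (i : Bool) : Continuous (r i) := by
  cases i
  · exact continuous_id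
  · exact continuous_const.sub continuous_id

theorem lip_f (i : Bool) (d : MetricSpace (E m))
    (hd : d.toPseudoMetricSpace.toUniformSpace.toTopologicalSpace =
      (inferInstance : TopologicalSpace (E m))) :
    1 < Lip d.dist (f m i) := by
  have hq : Continuous fun s : ℝ => r i s • e0 m := (r_cont i).smul continuous_const
  refine @lip_aux (E m) d (f m i) (fun s : ℝ => r i s • e0 m) (by rw [hd]; exact hq) ?_ ?_
  · intro s h1 h2 h3
    have h4 := congrArg (fun z : E m => z 0) h3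
    simp only [e0_zero] at h4
    cases i
    · have h5 : s = 0 := h4
      linarith
    · have h5 : 1 - s = 1 - 0 := h4
      linarith
  · intro s h1 h2
    rw [f_smul, phi_r i h1 h2]

theorem f_inj : Function.Injective (f m) := by
  intro i j h
  by_contra hne
  have h1 := congrFun h 0
  have h2 := congrArg (fun z : E m => z 0) h1
  simp only [f, e0_zero, PiLp.zero_apply] at h2
  have h3 : phi false 0 = 0 := by
    show p0 0 = 0
    rw [p0_spike le_rfl (by norm_num), mul_zero]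
  have h4 : phi true 0 = 1 / 2 := by
    show 1 - p0 (1 - 0) = 1 / 2
    rw [sub_zero, p0_flat (by norm_num)]
    norm_num
  cases i <;> cases j <;> first | exact hne rfl | (rw [h3, h4] at h2; norm_num at h2)

theorem f_card : (range (f m)).ncard = 2 := by
  rw [← image_univ, ncard_image_of_injective _ f_inj, ncard_univ]
  simp

end Pool.Agent.Wb8546e
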